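import Pool.Agent.R573.TT.UncSys

/-!
# Total termination is modular over countable signatures, and not over uncountable ones

Idea of the positive part. A well-ordering of the ground terms which shows total termination of
`R` is a strictly monotone well-ordered algebra `A` in which `l > r` holds for all rules and all
assignments. These properties pass to the lexicographic product of `A` with any ordered
commutative monoid `D` (the symbols act on `D` by addition), and to subalgebras. For `D` the
ordinals below `ω ^ (ω_ ω)` with the natural sum, and a weakly monotone unbounded level function
`ν : A → ℕ`, the pairs `(a, d)` with `d` of level at most `ν a` form a subalgebra, because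
`f(..., a, ...) ≥ a`. It has cardinality `ℵ_ω` and all its proper initial segments have smaller
cardinality, so its order type is `ω_ ω`, whatever `A` was. So `R` and `R'` have models on one
and the same well-order, and the ground terms of the union can be evaluated there; ties are broken
by the length and then lexicographically in Polish notation.

Idea of the negative part. `R₁` has constants `c k` and binary `u k` (`k : ℕ`) and the rules
`c (k+1) → c k` and `u k (x, c k) → u (k+1) (x, x)`. In a well-ordered monotone model of `R₁` the
`c k` are cofinal: if `c k ≤ b` for all `k`, then `u k (b, b)` is an infinite descending sequence.
`R₂` has, for `i` in a well-order of type `ω₁` and `k : ℕ`, constants `d i`, unary `g i`, `h k`,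
`v k i` and binary `w i k`, and the rules `v k i (h k (x)) → v (k+1) i (g i (x))` and
`w i k (d i', g i (x)) → w i' k (x, h k (x))` for `i < i'`. In a well-ordered monotone model of
`R₂` only countably many `d i` lie below a given `x`: the first rules give a `k` with
`g i (x) ≤ h k (x)`, and by the second rules for every `k` only finitely many `i` have both
`d i ≤ x` and `g i (x) ≤ h k (x)`. So the union has no such model.
-/

set_option autoImplicit false

namespace Pool.Agent.Results.MP_8e1749_lc.CountableYesUncountableNo

open Pool.Agent.R573.TT

universe u

/-- (1) If `R` and `R'` are totally terminating term rewrite systems over countable (for example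
finite) signatures `S` and `T`, then their union over the disjoint union of the two signatures is
totally terminating. (2) There are totally terminating systems, one over a countable signature and
one over a signature with `ℵ₁` symbols, whose union over the disjoint union of the two signatures
is not totally terminating. -/
theorem result :
    (∀ (S T : Sig.{u}) (R : TRS S) (R' : TRS T), Countable S.Op → Countable T.Op →
      TotallyTerminating R → TotallyTerminating R' → TotallyTerminating (R.union R')) ∧
    ∃ (S T : Sig.{0}) (R : TRS S) (R' : TRS T), Countable S.Op ∧
      Cardinal.mk T.Op = Cardinal.aleph 1 ∧
      TotallyTerminating R ∧ TotallyTerminating R' ∧ ¬ TotallyTerminating (R.union R') :=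
  ⟨fun _ _ R R' _ _ => modular R R',
    S1, S2, R1, R2, inferInstanceAs (Countable Op1), mk_Op2, tt1, tt2, not_tt⟩

end Pool.Agent.Results.MP_8e1749_lc.CountableYesUncountableNo
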